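import Mathlib

/-!
[H63 EH CHI] A finitely generated domain of characteristic zero has homomorphisms to `F̄_p` for a
prime `p > B`, which do not kill a given element `h ≠ 0`; the image is finite.
-/

set_option linter.style.haveILetI false

namespace H63EH

theorem isJacobsonRing_int : IsJacobsonRing ℤ := by
  rw [isJacobsonRing_iff_prime_eq]
  intro P hP
  by_cases h0 : P = ⊥
  · subst h0
    rw [eq_bot_iff]
    intro x hx
    by_contra hx0
    have hx0' : x ≠ 0 := hx0
    obtain ⟨p, hp1, hp⟩ := Nat.exists_infinite_primes (x.natAbs + 1)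
    have hm : (Ideal.span {(p : ℤ)}).IsMaximal := by
      have h1 : (Ideal.span {(p : ℤ)}).IsPrime := by
        rw [Ideal.span_singleton_prime (by exact_mod_cast hp.ne_zero)]
        exact Nat.prime_iff_prime_int.1 hp
      refine h1.isMaximal ?_
      rw [Ne, Ideal.span_singleton_eq_bot]
      exact_mod_cast hp.ne_zero
    have h2 : x ∈ Ideal.span {(p : ℤ)} := by
      rw [Ideal.jacobson, Ideal.mem_sInf] at hx
      exact hx ⟨bot_le, hm⟩
    rw [Ideal.mem_span_singleton] at h2
    have h3 := Int.natAbs_dvd_natAbs.2 h2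
    have h4 := Nat.le_of_dvd (Int.natAbs_pos.2 hx0') h3
    simp only [Int.natAbs_natCast] at h4
    omega
  · have h1 : P.IsMaximal := hP.isMaximal h0
    exact Ideal.jacobson_eq_self_of_isMaximal

/-- A field which is a finitely generated ring is finite. -/
theorem finite_of_finiteType (K : Type) [Field K] (hft : (Int.castRingHom K).FiniteType) :
    ∃ p : ℕ, p.Prime ∧ CharP K p ∧ Finite K := by
  haveI := isJacobsonRing_int
  haveI : Algebra.FiniteType ℤ K := by
    have h1 : (algebraMap ℤ K).FiniteType := by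
      rw [algebraMap_int_eq]; exact hft
    exact (RingHom.finiteType_algebraMap).1 h1
  haveI : Module.Finite ℤ K := finite_of_finite_type_of_isJacobsonRing ℤ K
  obtain ⟨p, hp⟩ := CharP.exists K
  rcases CharP.char_is_prime_or_zero K p with h | h
  · refine ⟨p, h, hp, ?_⟩
    haveI : Fact p.Prime := ⟨h⟩
    letI : Algebra (ZMod p) K := ZMod.algebra K p
    haveI : Module.Finite (ZMod p) K := Module.Finite.of_restrictScalars_finite ℤ (ZMod p) K
    exact Module.finite_of_finite (ZMod p)
  · exfalso
    subst h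
    haveI : CharZero K := CharP.charP_to_charZero K
    have h1 : IsField ℤ := isField_of_isIntegral_of_isField (S := K)
      (by rw [algebraMap_int_eq]; exact Int.cast_injective) (Field.toIsField K)
    exact Int.not_isField h1

theorem exists_field {Λ : Type} [CommRing Λ] [IsDomain Λ] [Algebra.FiniteType ℤ Λ] (x : Λ)
    (hx : x ≠ 0) : ∃ (K : Type) (_ : Field K) (p : ℕ) (π : Λ →+* K), p.Prime ∧ CharP K p ∧
      Finite K ∧ π x ≠ 0 := by
  let A : Type := Localization.Away x
  haveI : Nontrivial A := by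
    have h1 : Function.Injective (algebraMap Λ A) :=
      IsLocalization.injective A (powers_le_nonZeroDivisors_of_noZeroDivisors hx)
    exact h1.nontrivial
  haveI : Algebra.FiniteType ℤ A := inferInstance
  obtain ⟨m, hm⟩ := Ideal.exists_maximal A
  letI : Field (A ⧸ m) := Ideal.Quotient.field m
  have hft : (Int.castRingHom (A ⧸ m)).FiniteType := by
    have h1 : (algebraMap ℤ A).FiniteType := (RingHom.finiteType_algebraMap).2 inferInstance
    have h2 : (Ideal.Quotient.mk m).FiniteType :=
      RingHom.FiniteType.of_surjective _ Ideal.Quotient.mk_surjective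
    have h3 := h2.comp h1
    have h4 : (Ideal.Quotient.mk m).comp (algebraMap ℤ A) = Int.castRingHom (A ⧸ m) :=
      RingHom.ext_int _ _
    rw [h4] at h3
    exact h3
  obtain ⟨p, hp, hcp, hfin⟩ := finite_of_finiteType (A ⧸ m) hft
  refine ⟨A ⧸ m, inferInstance, p, (Ideal.Quotient.mk m).comp (algebraMap Λ A), hp, hcp, hfin, ?_⟩
  have h1 : IsUnit (algebraMap Λ A x) := IsLocalization.Away.algebraMap_isUnit x
  exact (h1.map (Ideal.Quotient.mk m)).ne_zero

/-- Homomorphisms of a finitely generated domain of characteristic zero to `F̄_p`. -/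
theorem chi {Λ : Type} [CommRing Λ] [IsDomain Λ] [CharZero Λ] [Algebra.FiniteType ℤ Λ] (h : Λ)
    (hh : h ≠ 0) (B : ℕ) :
    ∃ (p : ℕ) (_ : Fact p.Prime) (χ : Λ →+* AlgebraicClosure (ZMod p)) (r : ℕ), B < p ∧
      χ h ≠ 0 ∧ 0 < r ∧ ∀ x, χ x ^ p ^ r = χ x := by
  classical
  have hB : ((B.factorial : ℕ) : Λ) ≠ 0 := by exact_mod_cast B.factorial_ne_zero
  obtain ⟨K, _, p, π, hp, hcp, hfin, hπ⟩ := exists_field (h * ((B.factorial : ℕ) : Λ))
    (mul_ne_zero hh hB)
  haveI : Fact p.Prime := ⟨hp⟩
  letI : Algebra (ZMod p) K := ZMod.algebra K p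
  haveI : Module.Finite (ZMod p) K := Module.Finite.of_finite
  let ψ : K →ₐ[ZMod p] AlgebraicClosure (ZMod p) := IsAlgClosed.lift
  cases nonempty_fintype K
  obtain ⟨n, hn⟩ : ∃ n : ℕ+, Fintype.card K = p ^ (n : ℕ) := by
    obtain ⟨n, _, hn⟩ := FiniteField.card K p
    exact ⟨n, hn⟩
  refine ⟨p, inferInstance, ψ.toRingHom.comp π, n, ?_, ?_, n.2, ?_⟩
  · by_contra hBp
    push Not at hBp
    apply hπ
    rw [map_mul, map_natCast]
    have h1 : p ∣ B.factorial := (hp.dvd_factorial).2 hBp
    rw [(CharP.cast_eq_zero_iff K p _).2 h1, mul_zero]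
  · intro h0
    apply hπ
    rw [map_mul]
    have h1 : π h = 0 := by
      apply ψ.toRingHom.injective
      rw [map_zero]
      exact h0
    rw [h1, zero_mul]
  · intro y
    change ψ (π y) ^ p ^ (n : ℕ) = ψ (π y)
    rw [← map_pow, ← hn, FiniteField.pow_card]

end H63EH
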