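import Mathlib

/-!
[H63 EH NS] Specialisation lemma: a finite system of polynomial equations over a domain `Λ` inside
an algebraically closed field `E`, without solution in `E`, has no solution in any field `k` under
any homomorphism `χ : Λ → k` which does not kill a certain `h ≠ 0`.
-/

set_option linter.style.haveILetI false

namespace H63EH

open MvPolynomial

theorem ns_mem {Λ E : Type} [CommRing Λ] [IsDomain Λ] [Field E] [IsAlgClosed E] [Algebra Λ E]
    (hinj : Function.Injective (algebraMap Λ E)) {σ ι : Type} [Finite σ]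
    (S : ι → MvPolynomial σ Λ) (hS : ∀ x : σ → E, ∃ i, aeval x (S i) ≠ 0) :
    ∃ h : Λ, h ≠ 0 ∧ (C h : MvPolynomial σ Λ) ∈ Ideal.span (Set.range S) := by
  classical
  haveI : FaithfulSMul Λ E := (faithfulSMul_iff_algebraMap_injective Λ E).2 hinj
  letI : Algebra (FractionRing Λ) E := FractionRing.liftAlgebra Λ E
  haveI : IsScalarTower Λ (FractionRing Λ) E := FractionRing.isScalarTower_liftAlgebra Λ E
  letI : Algebra (MvPolynomial σ Λ) (MvPolynomial σ (FractionRing Λ)) := algebraMvPolynomial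
  let I0 : Ideal (MvPolynomial σ Λ) := Ideal.span (Set.range S)
  let I : Ideal (MvPolynomial σ (FractionRing Λ)) :=
    I0.map (algebraMap (MvPolynomial σ Λ) (MvPolynomial σ (FractionRing Λ)))
  have hz : zeroLocus E I = ∅ := by
    ext x
    simp only [mem_zeroLocus_iff, Set.mem_empty_iff_false, iff_false]
    intro hx
    obtain ⟨i, hi⟩ := hS x
    apply hi
    have h1 := hx (algebraMap _ _ (S i)) (Ideal.mem_map_of_mem _ (Ideal.subset_span ⟨i, rfl⟩))
    rw [algebraMap_def, aeval_map_algebraMap] at h1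
    exact h1
  have h1 : I.radical = ⊤ := by
    rw [← vanishingIdeal_zeroLocus_eq_radical (K := E) I, hz, vanishingIdeal_empty]
  have h2 : (1 : MvPolynomial σ (FractionRing Λ)) ∈ I := by
    rw [← Ideal.eq_top_iff_one]
    exact Ideal.radical_eq_top.1 h1
  haveI : IsLocalization ((nonZeroDivisors Λ).map (C : Λ →+* MvPolynomial σ Λ))
      (MvPolynomial σ (FractionRing Λ)) := MvPolynomial.isLocalization (nonZeroDivisors Λ) _
  obtain ⟨⟨a, m⟩, ham⟩ := (IsLocalization.mem_map_algebraMap_iff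
    ((nonZeroDivisors Λ).map (C : Λ →+* MvPolynomial σ Λ)) _).1 h2
  obtain ⟨h, hh, hm⟩ := m.2
  refine ⟨h, nonZeroDivisors.ne_zero hh, ?_⟩
  have h3 : (algebraMap (MvPolynomial σ Λ) (MvPolynomial σ (FractionRing Λ))) (C h)
      = algebraMap _ _ (a : MvPolynomial σ Λ) := by
    rw [← ham, one_mul, ← hm]
  have h4 : Function.Injective
      (algebraMap (MvPolynomial σ Λ) (MvPolynomial σ (FractionRing Λ))) := by
    rw [algebraMap_def]
    exact map_injective _ (IsFractionRing.injective Λ (FractionRing Λ))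
  rw [h4 h3]
  exact a.2

/-- The specialisation lemma. -/
theorem ns {Λ E : Type} [CommRing Λ] [IsDomain Λ] [Field E] [IsAlgClosed E] [Algebra Λ E]
    (hinj : Function.Injective (algebraMap Λ E)) {σ ι : Type} [Finite σ]
    (S : ι → MvPolynomial σ Λ) (hS : ∀ x : σ → E, ∃ i, aeval x (S i) ≠ 0) :
    ∃ h : Λ, h ≠ 0 ∧ ∀ (k : Type) [Field k] (χ : Λ →+* k), χ h ≠ 0 →
      ∀ x : σ → k, ∃ i, eval₂ χ x (S i) ≠ 0 := by
  obtain ⟨h, h0, hmem⟩ := ns_mem hinj S hS
  refine ⟨h, h0, fun k _ χ hχ x => ?_⟩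
  by_contra hcon
  push Not at hcon
  apply hχ
  have h1 : Ideal.span (Set.range S) ≤ RingHom.ker (eval₂Hom χ x) := by
    rw [Ideal.span_le]
    rintro _ ⟨i, rfl⟩
    exact hcon i
  have h2 := h1 hmem
  rw [RingHom.mem_ker, eval₂Hom_C] at h2
  exact h2

end H63EH
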