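import Pool.Agent.H63.EH.NrmB

/-!
[H63 EH NRMA] If the ring of a multiplication table over an algebraically closed field is not
integrally closed then the singularity system has a solution.
-/

set_option autoImplicit false
set_option linter.style.haveILetI false
set_option linter.unusedSectionVars false

namespace H63EH

open Polynomial Pool.H93.OP

section

variable {k R : Type} [Field k] [CommRing R] [IsDomain R] [Algebra k R] {s : ℕ}
  {t : R} {e : Fin s → R} {P : Fin s → Fin s → Fin s → k[X]}

/-- The algebra structure over `k[X]`, `X` acting as `t`. -/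
theorem finite_of_hasTab (h : HasTab k t e P) :
    @Module.Finite k[X] R _ _ ((aeval t : k[X] →ₐ[k] R).toRingHom.toAlgebra.toModule) := by
  letI : Algebra k[X] R := (aeval t : k[X] →ₐ[k] R).toRingHom.toAlgebra
  classical
  refine ⟨⟨Finset.univ.image e, ?_⟩⟩
  rw [eq_top_iff]
  rintro r -
  obtain ⟨f, rfl⟩ := h.bij.2 r
  unfold comb
  refine Submodule.sum_mem _ fun j _ => ?_
  have h1 : aeval t (f j) * e j = f j • e j := rfl
  rw [h1]
  refine Submodule.smul_mem _ _ (Submodule.subset_span ?_)
  simp

theorem isNoetherianRing (h : HasTab k t e P) : IsNoetherianRing R := by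
  letI : Algebra k[X] R := (aeval t : k[X] →ₐ[k] R).toRingHom.toAlgebra
  haveI : Module.Finite k[X] R := finite_of_hasTab h
  exact IsNoetherianRing.of_finite k[X] R

/-- nonzero prime ideals are kernels of points -/
theorem exists_point [IsAlgClosed k] (h : HasTab k t e P) (Q : Ideal R) (hQ : Q.IsPrime)
    (hQ0 : Q ≠ ⊥) : ∃ χ : R →ₐ[k] k, ∀ r, r ∈ Q ↔ χ r = 0 := by
  letI : Algebra k[X] R := (aeval t : k[X] →ₐ[k] R).toRingHom.toAlgebra
  haveI : Module.Finite k[X] R := finite_of_hasTab h
  haveI : IsScalarTower k k[X] R := IsScalarTower.of_algebraMap_eq fun x => by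
    change algebraMap k R x = aeval t (C x)
    rw [aeval_C]
  haveI : Algebra.IsIntegral k[X] R := inferInstance
  obtain ⟨x, hxQ, hx0⟩ := (Submodule.ne_bot_iff Q).1 hQ0
  have h1 : Q.comap (algebraMap k[X] R) ≠ ⊥ :=
    Ideal.comap_ne_bot_of_integral_mem hx0 hxQ (Algebra.IsIntegral.isIntegral x)
  have h2 : (Q.comap (algebraMap k[X] R)).IsPrime := inferInstance
  have h3 : (Q.comap (algebraMap k[X] R)).IsMaximal := h2.isMaximal h1
  have h4 : Q.IsMaximal := Ideal.isMaximal_of_isIntegral_of_isMaximal_comap Q h3
  have hft : Algebra.FiniteType k (R ⧸ Q) := by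
    haveI : Algebra.FiniteType k[X] R := inferInstance
    haveI : Algebra.FiniteType k R := Algebra.FiniteType.trans (S := k[X]) inferInstance
      inferInstance
    exact Algebra.FiniteType.quotient k Q
  have hbij : Function.Bijective (algebraMap k (R ⧸ Q)) := by
    have h5 : Algebra.IsIntegral k (R ⧸ Q) := by
      letI : Field (R ⧸ Q) := Ideal.Quotient.field Q
      haveI : Module.Finite k (R ⧸ Q) := finite_of_finite_type_of_isJacobsonRing k (R ⧸ Q)
      infer_instance
    exact IsAlgClosed.algebraMap_bijective_of_isIntegral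
  let E : k ≃ₐ[k] (R ⧸ Q) := AlgEquiv.ofBijective (Algebra.ofId k (R ⧸ Q)) hbij
  refine ⟨E.symm.toAlgHom.comp (Ideal.Quotient.mkₐ k Q), fun r => ?_⟩
  rw [← Ideal.Quotient.eq_zero_iff_mem]
  change _ ↔ E.symm (Ideal.Quotient.mk Q r) = 0
  rw [map_eq_zero_iff _ E.symm.injective]

/-- the value of a combination at a point -/
theorem point_comb (χ : R →ₐ[k] k) (f : Fin s → k[X]) :
    χ (comb k t e f) = ∑ j, (f j).eval (χ t) * χ (e j) := by
  rw [comb, map_sum]
  refine Finset.sum_congr rfl fun j _ => ?_
  rw [map_mul]
  congr 1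
  rw [← Polynomial.aeval_algHom_apply, coe_aeval_eq_eval]

/-- An element `b` of the fraction field, integral over `R`, not in `R`, and a point with kernel
`{r | r b ∈ R}`. -/
theorem exists_bad [IsAlgClosed k] (h : HasTab k t e P) (hR : ¬ IsIntegrallyClosed R) :
    ∃ (b : FractionRing R) (χ : R →ₐ[k] k), IsIntegral R b ∧
      b ∉ Set.range (algebraMap R (FractionRing R)) ∧
      ∀ r, χ r = 0 ↔ algebraMap R (FractionRing R) r * b ∈
        Set.range (algebraMap R (FractionRing R)) := by
  haveI := isNoetherianRing h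
  have hinj : Function.Injective (algebraMap R (FractionRing R)) := IsFractionRing.injective R _
  -- the ideals
  let I : FractionRing R → Ideal R := fun b =>
    { carrier := {r | algebraMap R (FractionRing R) r * b ∈
        Set.range (algebraMap R (FractionRing R))}
      zero_mem' := ⟨0, by simp⟩
      add_mem' := by
        rintro x y ⟨x', hx⟩ ⟨y', hy⟩
        exact ⟨x' + y', by rw [map_add, map_add, add_mul, hx, hy]⟩
      smul_mem' := by
        rintro c x ⟨x', hx⟩
        exact ⟨c * x', by rw [smul_eq_mul, map_mul, map_mul, mul_assoc, hx]⟩ }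
  have hI : ∀ b r, r ∈ I b ↔ algebraMap R (FractionRing R) r * b ∈
      Set.range (algebraMap R (FractionRing R)) := fun b r => Iff.rfl
  let S : Set (Ideal R) := {J | ∃ b : FractionRing R, IsIntegral R b ∧
      b ∉ Set.range (algebraMap R (FractionRing R)) ∧ J = I b}
  have hS : S.Nonempty := by
    by_contra hcon
    apply hR
    rw [isIntegrallyClosed_iff (FractionRing R)]
    intro x hx
    by_contra hx'
    exact hcon ⟨I x, x, hx, hx', rfl⟩
  obtain ⟨J, ⟨b, hb1, hb2, rfl⟩, hmax⟩ := set_has_maximal_iff_noetherian.2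
    (inferInstance : IsNoetherian R R) S hS
  have hprime : (I b).IsPrime := by
    refine Ideal.isPrime_iff.2 ⟨?_, ?_⟩
    · intro h0
      have h1 : (1 : R) ∈ I b := by rw [h0]; trivial
      rw [hI, map_one, one_mul] at h1
      exact hb2 h1
    · intro x y hxy
      by_contra hcon
      push Not at hcon
      obtain ⟨hx, hy⟩ := hcon
      apply hmax (I (algebraMap R (FractionRing R) x * b))
        ⟨_, (isIntegral_algebraMap).mul hb1, hx, rfl⟩
      refine lt_of_le_of_ne ?_ ?_
      · intro r hr
        obtain ⟨r', hr'⟩ := hr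
        refine ⟨x * r', ?_⟩
        rw [map_mul, hr', mul_left_comm]
      · intro heq
        apply hy
        rw [heq, hI, ← mul_assoc, ← map_mul, mul_comm y x]
        exact hxy
  have hne : I b ≠ ⊥ := by
    obtain ⟨u, v, hv, huv⟩ := IsFractionRing.div_surjective (A := R) b
    intro h0
    have h1 : v ∈ I b := by
      rw [hI]
      refine ⟨u, ?_⟩
      rw [← huv]
      have h2 : algebraMap R (FractionRing R) v ≠ 0 := by
        intro h3
        exact nonZeroDivisors.ne_zero hv (hinj (by rw [h3, map_zero]))
      rw [mul_div_cancel₀ _ h2]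
    rw [h0, Ideal.mem_bot] at h1
    exact nonZeroDivisors.ne_zero hv h1
  obtain ⟨χ, hχ⟩ := exists_point h (I b) hprime hne
  exact ⟨b, χ, hb1, hb2, fun r => (hχ r).symm⟩

/-- `b` maps the kernel of the point to itself -/
theorem bad_mul (χ : R →ₐ[k] k) (b : FractionRing R) (hb : IsIntegral R b) (p q : R)
    (hp : χ p = 0) (hq : algebraMap R (FractionRing R) q = algebraMap R (FractionRing R) p * b) :
    χ q = 0 := by
  have hinj : Function.Injective (algebraMap R (FractionRing R)) := IsFractionRing.injective R _
  obtain ⟨f, hf, hfb⟩ := hb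
  have h1 : eval₂ (algebraMap R (FractionRing R)) (algebraMap R (FractionRing R) p * b)
      (scaleRoots f p) = 0 := scaleRoots_eval₂_eq_zero _ hfb
  rw [← hq, eval₂_at_apply] at h1
  have h2 : eval q (scaleRoots f p) = 0 := by
    apply hinj
    rw [map_zero]
    exact h1
  have h3 : eval₂ (χ : R →+* k) ((χ : R →+* k) q) (scaleRoots f p) = 0 := by
    rw [eval₂_at_apply, h2, map_zero]
  rw [← eval_map, map_scaleRoots _ _ _ (by rw [hf.leadingCoeff]; simp)] at h3
  have h5 : (χ : R →+* k) p = 0 := hp
  rw [h5, scaleRoots_zero, (hf.map _).leadingCoeff] at h3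
  rw [one_smul, eval_pow, eval_X] at h3
  by_contra hne
  exact pow_ne_zero _ hne h3

/-- If the ring is not integrally closed then the singularity system has a solution. -/
theorem sing_of_not_closed [IsAlgClosed k] (h : HasTab k t e P) (hR : ¬ IsIntegrallyClosed R) :
    ∃ (c : k) (ε ζ : Fin s → k), Sing P c ε ζ := by
  obtain ⟨b, χ, hb, hbR, hker⟩ := exists_bad h hR
  have hinj : Function.Injective (algebraMap R (FractionRing R)) := IsFractionRing.injective R _
  set c : k := χ t with hc
  have hτ : χ (t - algebraMap k R c) = 0 := by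
    rw [map_sub, AlgHom.commutes]
    exact sub_self _
  -- `t - c` is not zero
  have hτ0 : t - algebraMap k R c ≠ 0 := by
    intro h0
    have h5 : ∀ f : Fin s → k[X], comb k t e f = 0 := by
      intro f
      have h6 : comb k t e (fun j => (X - C c) * f j) = comb k t e (fun _ => 0) := by
        rw [comb_smul, aeval_XC, h0, zero_mul]
        simp [comb]
      have h7 := h.bij.1 h6
      have h8 : f = 0 := by
        funext j
        have h9 := congrFun h7 j
        rcases mul_eq_zero.1 h9 with h10 | h10
        · exact absurd h10 (X_sub_C_ne_zero c)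
        · exact h10
      rw [h8]
      simp [comb]
    obtain ⟨f, hf⟩ := h.bij.2 1
    rw [h5 f] at hf
    exact zero_ne_one hf
  obtain ⟨z, hz⟩ := (hker _).1 hτ
  obtain ⟨f, rfl⟩ := h.bij.2 z
  let ζ : Fin s → k := fun j => (f j).eval c
  have hg : ∀ j, ∃ g, f j - C (ζ j) = (X - C c) * g := by
    intro j
    have h1 : (X - C c) ∣ f j - C (ζ j) := by
      rw [dvd_iff_isRoot]
      simp [ζ]
    exact h1
  choose g hg using hg
  -- the corrected element
  set a : R := comb k t e g with ha
  let b' : FractionRing R := b - algebraMap R (FractionRing R) a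
  have hb' : IsIntegral R b' := hb.sub isIntegral_algebraMap
  have hb'R : b' ∉ Set.range (algebraMap R (FractionRing R)) := by
    rintro ⟨y, hy⟩
    apply hbR
    refine ⟨y + a, ?_⟩
    rw [map_add, hy]
    simp [b']
  have hz' : algebraMap R (FractionRing R) (∑ j, ζ j • e j)
      = algebraMap R (FractionRing R) (t - algebraMap k R c) * b' := by
    have h1 : comb k t e f = ∑ j, ζ j • e j + (t - algebraMap k R c) * a := by
      rw [ha, ← aeval_XC, ← comb_smul, ← comb_C, ← comb_add]
      congr 1
      funext j
      rw [Pi.add_apply, ← hg j]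
      ring
    simp only [b']
    rw [mul_sub, ← hz, h1, map_add, map_mul]
    ring
  have hmap : ∀ p : R, χ p = 0 → ∃ q : R, χ q = 0 ∧
      algebraMap R (FractionRing R) q = algebraMap R (FractionRing R) p * b' := by
    intro p hp
    obtain ⟨q, hq⟩ := (hker p).1 hp
    have h1 : algebraMap R (FractionRing R) (q - p * a)
        = algebraMap R (FractionRing R) p * b' := by
      simp only [b']
      rw [map_sub, hq, map_mul, mul_sub]
    exact ⟨q - p * a, bad_mul χ b' hb' p _ hp h1, h1⟩
  -- the products
  have hprod : ∀ i, ∃ h' : Fin s → k[X],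
      (∀ l, ∑ j, C (ζ j) * P j i l - C (χ (e i) * ζ l) = (X - C c) * h' l) ∧
      ∑ l, (h' l).eval c * χ (e l) = 0 := by
    intro i
    obtain ⟨q, hq, hq'⟩ := hmap (e i - algebraMap k R (χ (e i))) (by
      rw [map_sub, AlgHom.commutes]
      exact sub_self _)
    obtain ⟨h', rfl⟩ := h.bij.2 q
    refine ⟨h', ?_, ?_⟩
    · have h1 : (∑ j, ζ j • e j) * (e i - algebraMap k R (χ (e i)))
          = (t - algebraMap k R c) * comb k t e h' := by
        apply hinj
        rw [map_mul, map_mul, hz', hq']
        ring
      have h2 : comb k t e (fun l => ∑ j, C (ζ j) * P j i l - C (χ (e i) * ζ l))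
          = comb k t e (fun l => (X - C c) * h' l) := by
        rw [comb_smul, aeval_XC, ← h1, mul_sub, comb_mul h.mul]
        have h3 : (fun l => ∑ j, C (ζ j) * P j i l - C (χ (e i) * ζ l))
            = (fun l => ∑ j, C (ζ j) * P j i l) - (fun l => C (χ (e i)) * C (ζ l)) := by
          funext l
          simp only [Pi.sub_apply, C_mul]
        rw [h3, comb_sub, comb_smul, comb_C, aeval_C, mul_comm (algebraMap k R (χ (e i)))]
      intro l
      exact congrFun (h.bij.1 h2) l
    · rw [← hq, point_comb]
  refine ⟨c, fun j => χ (e j), ζ, ?_, ?_, ?_, ?_⟩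
  · have h1 := bad_mul χ b' hb' (t - algebraMap k R c) (∑ j, ζ j • e j) hτ hz'
    rw [map_sum] at h1
    rw [← h1]
    refine Finset.sum_congr rfl fun j _ => ?_
    rw [map_smul, smul_eq_mul]
  · intro i l
    obtain ⟨h', h1, -⟩ := hprod i
    have h2 := congrArg (eval c) (h1 l)
    simp only [eval_sub, eval_finsetSum, eval_mul, eval_C, eval_X, sub_self, zero_mul] at h2
    exact sub_eq_zero.1 h2
  · intro i
    obtain ⟨h', h1, h2⟩ := hprod i
    rw [← h2]
    refine Finset.sum_congr rfl fun l _ => ?_
    congr 1
    have h3 := congrArg (fun p => eval c (derivative p)) (h1 l)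
    simp only [derivative_mul, derivative_sub, derivative_X, derivative_C, eval_add, eval_mul,
      eval_sub, eval_X, eval_C, sub_self, zero_mul, add_zero, sub_zero, one_mul,
      derivative_sum, eval_finsetSum, zero_add] at h3
    exact h3
  · by_contra hcon
    push Not at hcon
    have h1 : ∑ j, ζ j • e j = 0 := Finset.sum_eq_zero fun j _ => by rw [hcon j, zero_smul]
    rw [h1, map_zero] at hz'
    rcases mul_eq_zero.1 hz'.symm with h2 | h2
    · exact hτ0 (hinj (by rw [h2, map_zero]))
    · exact hb'R ⟨0, by rw [map_zero, h2]⟩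

end

end H63EH
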