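import Pool.Agent.H63.EH.NS
import Pool.Agent.H63.EH.NrmA

/-!
[H63 EH NRM] Normality specialises (chapter T3 of E1): the multiplication table of an integrally
closed ring over `E ⊇ Λ` gives integrally closed rings over all algebraically closed fields `k`, for
all homomorphisms `χ : Λ → k` which do not kill a certain `h ≠ 0`.
-/

set_option autoImplicit false
set_option linter.style.haveILetI false

namespace H63EH

open Polynomial Pool.H93.OP

variable {s : ℕ}

/-- the variables `c`, `ε j`, `ζ j`, `y j` -/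
abbrev Vr (s : ℕ) : Type := Option (Fin 3 × Fin s)

/-- the equations -/
abbrev Eq' (s : ℕ) : Type := Option ((Fin s × Fin s) ⊕ Fin s ⊕ Unit)

/-- the singularity system over `Λ` -/
noncomputable def sys {Λ : Type} [CommRing Λ] (P : Fin s → Fin s → Fin s → Λ[X]) :
    Eq' s → MvPolynomial (Vr s) Λ
  | none => ∑ j, MvPolynomial.X (some (1, j)) * MvPolynomial.X (some (0, j))
  | some (Sum.inl (i, l)) =>
    ∑ j, MvPolynomial.X (some (1, j)) * aeval (MvPolynomial.X none : MvPolynomial (Vr s) Λ) (P j i l)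
      - MvPolynomial.X (some (0, i)) * MvPolynomial.X (some (1, l))
  | some (Sum.inr (Sum.inl i)) =>
    ∑ l, (∑ j, MvPolynomial.X (some (1, j)) *
      aeval (MvPolynomial.X none : MvPolynomial (Vr s) Λ) (derivative (P j i l))) *
        MvPolynomial.X (some (0, l))
  | some (Sum.inr (Sum.inr ())) =>
    ∑ j, MvPolynomial.X (some (1, j)) * MvPolynomial.X (some (2, j)) - 1

theorem eval₂_aeval_X {Λ k : Type} [CommRing Λ] [Field k] (χ : Λ →+* k) (x : Vr s → k) (p : Λ[X]) :
    MvPolynomial.eval₂ χ x (aeval (MvPolynomial.X none : MvPolynomial (Vr s) Λ) p)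
      = (p.map χ).eval (x none) := by
  rw [aeval_def, ← MvPolynomial.coe_eval₂Hom, hom_eval₂, eval_map]
  congr 1
  · ext r
    simp
  · simp

theorem sys_iff {Λ k : Type} [CommRing Λ] [Field k] (χ : Λ →+* k)
    (P : Fin s → Fin s → Fin s → Λ[X]) :
    (∃ x : Vr s → k, ∀ i, MvPolynomial.eval₂ χ x (sys P i) = 0) ↔
      ∃ (c : k) (ε ζ : Fin s → k), Sing (fun i j l => (P i j l).map χ) c ε ζ := by
  constructor
  · rintro ⟨x, hx⟩
    refine ⟨x none, fun j => x (some (0, j)), fun j => x (some (1, j)), ?_, ?_, ?_, ?_⟩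
    · have h := hx none
      simpa [sys, MvPolynomial.eval₂_sum] using h
    · intro i l
      have h := hx (some (Sum.inl (i, l)))
      simp only [sys, MvPolynomial.eval₂_sub, MvPolynomial.eval₂_sum, MvPolynomial.eval₂_mul,
        MvPolynomial.eval₂_X, eval₂_aeval_X] at h
      exact sub_eq_zero.1 h
    · intro i
      have h := hx (some (Sum.inr (Sum.inl i)))
      simp only [sys, MvPolynomial.eval₂_sum, MvPolynomial.eval₂_mul,
        MvPolynomial.eval₂_X, eval₂_aeval_X] at h
      simp only [derivative_map]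
      exact h
    · by_contra hcon
      push Not at hcon
      have h := hx (some (Sum.inr (Sum.inr ())))
      simp only [sys, MvPolynomial.eval₂_sub, MvPolynomial.eval₂_sum, MvPolynomial.eval₂_mul,
        MvPolynomial.eval₂_X, MvPolynomial.eval₂_one, hcon, zero_mul, Finset.sum_const_zero] at h
      simp at h
  · rintro ⟨c, ε, ζ, h1, h2, h3, j0, h4⟩
    let y : Fin s → k := fun j => if j = j0 then (ζ j0)⁻¹ else 0
    refine ⟨fun v => v.elim c (fun w => ![ε w.2, ζ w.2, y w.2] w.1), ?_⟩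
    rintro (_ | (⟨i, l⟩ | (i | ⟨⟩)))
    · simp only [sys, MvPolynomial.eval₂_sum, MvPolynomial.eval₂_mul, MvPolynomial.eval₂_X]
      simpa using h1
    · simp only [sys, MvPolynomial.eval₂_sub, MvPolynomial.eval₂_sum, MvPolynomial.eval₂_mul,
        MvPolynomial.eval₂_X, eval₂_aeval_X]
      simpa [sub_eq_zero] using h2 i l
    · simp only [sys, MvPolynomial.eval₂_sum, MvPolynomial.eval₂_mul,
        MvPolynomial.eval₂_X, eval₂_aeval_X]
      have h := h3 i
      simp only [derivative_map] at h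
      simpa using h
    · simp only [sys, MvPolynomial.eval₂_sub, MvPolynomial.eval₂_sum, MvPolynomial.eval₂_mul,
        MvPolynomial.eval₂_X, MvPolynomial.eval₂_one]
      simp [y, h4]

/-- Normality specialises. -/
theorem nrm {Λ E R : Type} [CommRing Λ] [IsDomain Λ] [Field E] [IsAlgClosed E] [Algebra Λ E]
    (hinj : Function.Injective (algebraMap Λ E)) [CommRing R] [IsDomain R] [Algebra E R]
    (P : Fin s → Fin s → Fin s → Λ[X]) (t : R) (e : Fin s → R)
    (hT : HasTab E t e (fun i j l => (P i j l).map (algebraMap Λ E)))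
    (hR : IsIntegrallyClosed R) :
    ∃ h : Λ, h ≠ 0 ∧ ∀ (k : Type) [Field k] [IsAlgClosed k] (χ : Λ →+* k), χ h ≠ 0 →
      ∀ (R' : Type) [CommRing R'] [IsDomain R'] [Algebra k R'] (t' : R') (e' : Fin s → R'),
        HasTab k t' e' (fun i j l => (P i j l).map χ) → IsIntegrallyClosed R' := by
  have h1 : ∀ x : Vr s → E, ∃ i, MvPolynomial.aeval x (sys P i) ≠ 0 := by
    by_contra hcon
    push Not at hcon
    obtain ⟨x, hx⟩ := hcon
    obtain ⟨c, ε, ζ, hs⟩ := (sys_iff (algebraMap Λ E) P).1 ⟨x, hx⟩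
    exact not_closed_of_sing hT c ε ζ hs hR
  obtain ⟨h, h0, hh⟩ := ns hinj (sys P) h1
  refine ⟨h, h0, fun k _ _ χ hχ R' _ _ _ t' e' hT' => ?_⟩
  by_contra hR'
  obtain ⟨c, ε, ζ, hs⟩ := sing_of_not_closed hT' hR'
  obtain ⟨x, hx⟩ := (sys_iff χ P).2 ⟨c, ε, ζ, hs⟩
  obtain ⟨i, hi⟩ := hh k χ hχ x
  exact hi (hx i)

end H63EH
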