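import Mathlib

/-!
[H63 EH ULT] Ultraproducts of algebraically closed fields of characteristic zero, with the
theorem of Łoś for formulas.
-/

set_option linter.style.haveILetI false

namespace H63EH

open FirstOrder FirstOrder.Language FirstOrder.Ring FirstOrder.Field

theorem exists_ultra (K : ℕ → Type) [∀ n, Field (K n)] [∀ n, CompatibleRing (K n)]
    [∀ n, CharZero (K n)] [∀ n, IsAlgClosed (K n)] (U : Ultrafilter ℕ) :
    ∃ (E : Type) (_ : Field E) (_ : CompatibleRing E) (_ : IsAlgClosed E) (_ : CharZero E)
      (q : (∀ n, K n) →+* E), Function.Surjective q ∧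
      (∀ x, q x = 0 ↔ ∀ᶠ n in (U : Filter ℕ), x n = 0) ∧
      ∀ (α : Type) (φ : Language.ring.Formula α) (v : α → ∀ n, K n),
        φ.Realize (fun i => q (v i)) ↔ ∀ᶠ n in (U : Filter ℕ), φ.Realize (fun i => v i n) := by
  haveI : ∀ n, CharP (K n) 0 := fun n => CharP.ofCharZero (K n)
  let N : Type := (U : Filter ℕ).Product K
  haveI hM : (Theory.ACF 0).Model N := by
    refine ⟨fun φ hφ => ?_⟩
    rw [Ultraproduct.sentence_realize]
    exact Filter.Eventually.of_forall fun n => Theory.realize_sentence_of_mem (Theory.ACF 0) hφ
  letI := fieldOfModelACF 0 N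
  haveI := modelField_of_modelACF 0 N
  letI := compatibleRingOfModelField N
  haveI := isAlgClosed_of_model_ACF 0 N
  haveI := charP_of_model_fieldOfChar 0 N
  haveI : CharZero N := CharP.charP_to_charZero N
  let q0 : (∀ n, K n) → N := fun x => (x : (U : Filter ℕ).Product K)
  have hadd : ∀ x y, q0 (x + y) = q0 x + q0 y := by
    intro x y
    calc q0 (x + y) = q0 (fun n => Structure.funMap addFunc (fun i => ![x, y] i n)) := by
          refine congrArg q0 (funext fun n => ?_)
          rw [CompatibleRing.funMap_add]
          rfl
      _ = Structure.funMap addFunc (fun i => q0 (![x, y] i)) :=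
          (Ultraproduct.funMap_cast addFunc ![x, y]).symm
      _ = q0 x + q0 y := CompatibleRing.funMap_add (R := N) (fun i => q0 (![x, y] i))
  have hmul : ∀ x y, q0 (x * y) = q0 x * q0 y := by
    intro x y
    calc q0 (x * y) = q0 (fun n => Structure.funMap mulFunc (fun i => ![x, y] i n)) := by
          refine congrArg q0 (funext fun n => ?_)
          rw [CompatibleRing.funMap_mul]
          rfl
      _ = Structure.funMap mulFunc (fun i => q0 (![x, y] i)) :=
          (Ultraproduct.funMap_cast mulFunc ![x, y]).symm
      _ = q0 x * q0 y := CompatibleRing.funMap_mul (R := N) (fun i => q0 (![x, y] i))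
  have hzero : q0 0 = 0 := by
    calc q0 0 = q0 (fun n => Structure.funMap zeroFunc
            (fun i => (![] : Fin 0 → ∀ n, K n) i n)) := by
          refine congrArg q0 (funext fun n => ?_)
          rw [CompatibleRing.funMap_zero]
          rfl
      _ = Structure.funMap zeroFunc (fun i => q0 ((![] : Fin 0 → ∀ n, K n) i)) :=
          (Ultraproduct.funMap_cast zeroFunc ![]).symm
      _ = 0 := CompatibleRing.funMap_zero (R := N) _
  have hone : q0 1 = 1 := by
    calc q0 1 = q0 (fun n => Structure.funMap oneFunc
            (fun i => (![] : Fin 0 → ∀ n, K n) i n)) := by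
          refine congrArg q0 (funext fun n => ?_)
          rw [CompatibleRing.funMap_one]
          rfl
      _ = Structure.funMap oneFunc (fun i => q0 ((![] : Fin 0 → ∀ n, K n) i)) :=
          (Ultraproduct.funMap_cast oneFunc ![]).symm
      _ = 1 := CompatibleRing.funMap_one (R := N) _
  refine ⟨N, inferInstance, inferInstance, inferInstance, inferInstance,
    { toFun := q0
      map_one' := hone
      map_mul' := hmul
      map_zero' := hzero
      map_add' := hadd }, ?_, ?_, ?_⟩
  · exact Quotient.mk_surjective
  · intro x
    change q0 x = 0 ↔ _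
    rw [← hzero]
    exact Quotient.eq''
  · intro α φ v
    exact Ultraproduct.realize_formula_cast φ v

end H63EH
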