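import Pool.Agent.H63.EH.MC
import Pool.Agent.H63.EH.Ult

/-!
[H63 EH CPT] Compactness: if every algebraically closed field of characteristic zero satisfies
`θ(a) → ∃ z, ψ(a,z)`, then the coordinates of `z` can be taken to be roots of one of finitely many
polynomials over `ℤ[a]`, which do not vanish at `a`.
-/

set_option linter.style.haveILetI false

namespace H63EH

open FirstOrder FirstOrder.Language FirstOrder.Ring FirstOrder.Field

/-- evaluation of an integral polynomial at a tuple -/
noncomputable def ev {N : Type} (K : Type) [CommRing K] (a : N → K) : MvPolynomial N ℤ →+* K :=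
  MvPolynomial.eval₂Hom (Int.castRingHom K) a

theorem ev_X {N : Type} (K : Type) [CommRing K] (a : N → K) (i : N) :
    ev K a (MvPolynomial.X i) = a i := by
  simp [ev]

theorem map_ev {N : Type} {K K' : Type} [CommRing K] [CommRing K'] (f : K →+* K') (a : N → K)
    (p : MvPolynomial N ℤ) : f (ev K a p) = ev K' (f ∘ a) p := by
  have h : f.comp (ev K a) = ev K' (f ∘ a) := by
    apply MvPolynomial.ringHom_ext
    · intro r; simp [ev]
    · intro i; simp [ev]
  exact RingHom.congr_fun h p

theorem comp_ev {N : Type} {K K' : Type} [CommRing K] [CommRing K'] (f : K →+* K') (a : N → K) :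
    f.comp (ev K a) = ev K' (f ∘ a) := RingHom.ext fun p => map_ev f a p

/-- The elements of an algebraically closed field which are algebraic over the ring generated by
a tuple form an algebraically closed field. -/
theorem exists_alg_sub {N : Type} (E : Type) [Field E] [CharZero E] [IsAlgClosed E] (a : N → E) :
    ∃ (K0 : Type) (_ : Field K0) (_ : CharZero K0) (_ : IsAlgClosed K0) (f : K0 →+* E)
      (a0 : N → K0), f ∘ a0 = a ∧ ∀ x : K0, ∃ P : Polynomial (MvPolynomial N ℤ),
        P.map (ev E a) ≠ 0 ∧ (P.map (ev E a)).eval (f x) = 0 := by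
  let A : Subring E := (ev E a).range
  haveI : FaithfulSMul A E := (faithfulSMul_iff_algebraMap_injective A E).2 Subtype.val_injective
  letI : Algebra (FractionRing A) E := FractionRing.liftAlgebra A E
  haveI : IsScalarTower A (FractionRing A) E := FractionRing.isScalarTower_liftAlgebra A E
  let K0 : IntermediateField (FractionRing A) E := algebraicClosure (FractionRing A) E
  haveI : IsAlgClosed K0 := IsAlgClosure.isAlgClosed (FractionRing A)
  have hmem : ∀ i, a i ∈ K0 := by
    intro i
    have h1 : algebraMap A E ⟨a i, ⟨MvPolynomial.X i, ev_X E a i⟩⟩ = a i := rfl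
    rw [← h1, IsScalarTower.algebraMap_apply A (FractionRing A) E]
    exact K0.algebraMap_mem _
  refine ⟨K0, inferInstance, inferInstance, inferInstance, algebraMap K0 E,
    fun i => ⟨a i, hmem i⟩, ?_, ?_⟩
  · funext i; rfl
  · intro x
    have h1 : IsAlgebraic (FractionRing A) (x : E) :=
      mem_algebraicClosure_iff.1 x.2
    have h2 : IsAlgebraic A (x : E) := (IsFractionRing.isAlgebraic_iff A (FractionRing A) E).2 h1
    obtain ⟨p, hp0, hp⟩ := h2
    have hs : Function.Surjective (ev E a).rangeRestrict := (ev E a).rangeRestrict_surjective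
    obtain ⟨P, rfl⟩ := Polynomial.map_surjective _ hs p
    have h3 : P.map (ev E a) = (P.map (ev E a).rangeRestrict).map (algebraMap A E) := by
      rw [Polynomial.map_map]
      rfl
    refine ⟨P, ?_, ?_⟩
    · rw [h3]
      intro h0
      apply hp0
      exact (Polynomial.map_eq_zero_iff (Subtype.val_injective)).1 h0
    · rw [h3, Polynomial.eval_map_algebraMap]
      exact hp

/-- The compactness lemma: finitely many tuples of polynomials suffice. -/
theorem compact {N M : Type} [Finite N] [Finite M] (θ : Language.ring.Formula N)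
    (ψ : Language.ring.Formula (N ⊕ M))
    (h : ∀ (K : Type) [Field K] [CompatibleRing K] [CharZero K] [IsAlgClosed K] (a : N → K),
      θ.Realize a → ∃ z : M → K, ψ.Realize (Sum.elim a z)) :
    ∃ (J : ℕ) (P : ℕ → M → Polynomial (MvPolynomial N ℤ)),
      ∀ (K : Type) [Field K] [CompatibleRing K] [CharZero K] [IsAlgClosed K] (a : N → K),
      θ.Realize a → ∃ j < J, ∃ z : M → K, ψ.Realize (Sum.elim a z) ∧
        ∀ i, (P j i).map (ev K a) ≠ 0 ∧ ((P j i).map (ev K a)).eval (z i) = 0 := by
  classical
  haveI : Countable (M → Polynomial (MvPolynomial N ℤ)) := by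
    haveI : Countable (MvPolynomial N ℤ) := by
      haveI : Countable N := Finite.to_countable
      rw [← Cardinal.mk_le_aleph0_iff]
      refine MvPolynomial.cardinalMk_le_max.trans ?_
      simp
    haveI : Countable (Polynomial (MvPolynomial N ℤ)) := by
      rw [← Cardinal.mk_le_aleph0_iff]
      refine Polynomial.cardinalMk_le_max.trans ?_
      simp
    infer_instance
  obtain ⟨e, he⟩ := exists_surjective_nat (M → Polynomial (MvPolynomial N ℤ))
  by_contra hcon
  push Not at hcon
  choose K iF iC iZ iA a hθ hbad using fun J => hcon J e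
  obtain ⟨E, _, _, _, _, q, hqs, hq0, hq⟩ := exists_ultra K (Filter.hyperfilter ℕ)
  -- the ideal point
  let as : N → E := fun i => q (fun n => a n i)
  have hθs : θ.Realize as := (hq N θ (fun i n => a n i)).2 (Filter.Eventually.of_forall hθ)
  obtain ⟨K0, _, _, _, f, a0, hfa, halg⟩ := exists_alg_sub E as
  letI : CompatibleRing K0 := compatibleRingOfRing K0
  haveI : CharP K0 0 := CharP.ofCharZero K0
  haveI : CharP E 0 := CharP.ofCharZero E
  have hθ0 : θ.Realize a0 := by
    rw [← realize_iff 0 K0 E f θ a0, hfa]
    exact hθs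
  obtain ⟨z0, hz0⟩ := h K0 a0 hθ0
  have hψs : ψ.Realize (Sum.elim as (f ∘ z0)) := by
    have h1 := (realize_iff 0 K0 E f ψ (Sum.elim a0 z0)).2 hz0
    rw [Sum.comp_elim, hfa] at h1
    exact h1
  choose w hw using fun i => hqs (f (z0 i))
  have hψn : ∀ᶠ n in (Filter.hyperfilter ℕ : Filter ℕ),
      ψ.Realize (Sum.elim (a n) (fun i => w i n)) := by
    have h1 := hq (N ⊕ M) ψ (Sum.elim (fun i n => a n i) w)
    have h2 : (fun i => q (Sum.elim (fun i n => a n i) w i)) = Sum.elim as (f ∘ z0) := by
      funext i
      rcases i with i | i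
      · rfl
      · exact hw i
    rw [h2] at h1
    refine (h1.1 hψs).mono fun n hn => ?_
    have h3 : (fun i => Sum.elim (fun i n => a n i) w i n)
        = Sum.elim (a n) (fun i => w i n) := by
      funext i
      rcases i with i | i <;> rfl
    rw [h3] at hn
    exact hn
  choose P hP1 hP2 using fun i => halg (z0 i)
  -- evaluation in the product
  have hev : ∀ c : MvPolynomial N ℤ, ev E as c = q (fun n => ev (K n) (a n) c) := by
    intro c
    have h1 := map_ev q (fun (i : N) (n : ℕ) => a n i) c
    have h2 : (q ∘ fun (i : N) (n : ℕ) => a n i) = as := rfl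
    rw [h2] at h1
    rw [← h1]
    refine congrArg q (funext fun n => ?_)
    exact map_ev (Pi.evalRingHom K n) (fun (i : N) (n : ℕ) => a n i) c
  have hne : ∀ i, ∀ᶠ n in (Filter.hyperfilter ℕ : Filter ℕ), (P i).map (ev (K n) (a n)) ≠ 0 := by
    intro i
    obtain ⟨k, hk⟩ : ∃ k, ((P i).map (ev E as)).coeff k ≠ 0 := by
      by_contra hc
      push Not at hc
      exact hP1 i (Polynomial.ext fun k => by simpa using hc k)
    rw [Polynomial.coeff_map, hev, Ne, hq0, ← Ultrafilter.eventually_not] at hk
    refine hk.mono fun n hn h0 => hn ?_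
    have h1 := congrArg (fun p => Polynomial.coeff p k) h0
    simpa [Polynomial.coeff_map] using h1
  have hroot : ∀ i, ∀ᶠ n in (Filter.hyperfilter ℕ : Filter ℕ),
      ((P i).map (ev (K n) (a n))).eval (w i n) = 0 := by
    intro i
    have h1 := hP2 i
    rw [← hw i] at h1
    have h2 : ((P i).map (ev E as)).eval (q (w i))
        = q (fun n => ((P i).map (ev (K n) (a n))).eval (w i n)) := by
      rw [Polynomial.eval_map, Polynomial.eval₂_eq_sum_range]
      have h3 : (fun n => ((P i).map (ev (K n) (a n))).eval (w i n))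
          = ∑ k ∈ Finset.range ((P i).natDegree + 1),
            (fun n => ev (K n) (a n) ((P i).coeff k)) * (w i) ^ k := by
        funext n
        rw [Polynomial.eval_map, Polynomial.eval₂_eq_sum_range, Finset.sum_apply]
        rfl
      rw [h3, map_sum]
      refine Finset.sum_congr rfl fun k _ => ?_
      rw [map_mul, map_pow, hev]
    rw [h2] at h1
    exact (hq0 _).1 h1
  obtain ⟨m, hm⟩ := he P
  have hlarge : ∀ᶠ n in (Filter.hyperfilter ℕ : Filter ℕ), m < n := by
    have h1 : ∀ᶠ n in Filter.cofinite, m < n := by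
      rw [Nat.cofinite_eq_atTop]
      exact Filter.eventually_gt_atTop m
    exact (Filter.hyperfilter_le_cofinite (α := ℕ)) h1
  obtain ⟨n, hn1, hn2, hn3, hn4⟩ := (hψn.and ((Filter.eventually_all.2 hne).and
    ((Filter.eventually_all.2 hroot).and hlarge))).exists
  obtain ⟨i, hi⟩ := hbad n m hn4 (fun i => w i n) hn1
  rw [hm] at hi
  exact hi (hn2 i) (hn3 i)

end H63EH
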