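import Pool.Agent.H63.EH.Hts

/-!
[H63 EH DFN] Definable families of predicates on tuples of elements of fields, closure under
logical operations and polynomial identities, the transfer principle of Lefschetz and heights by
compactness in semantic form (no formulas in the statements).
-/

set_option linter.style.haveILetI false

namespace H63EH

open FirstOrder FirstOrder.Language FirstOrder.Ring FirstOrder.Field

/-- A family `P K` of predicates on tuples of elements of fields `K` is definable if it is given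
by one first order formula in the language of rings. -/
def Dfn {α : Type} (P : ∀ (K : Type) [Field K], (α → K) → Prop) : Prop :=
  ∃ φ : Language.ring.Formula α, ∀ (K : Type) [Field K] [CompatibleRing K] (v : α → K),
    φ.Realize v ↔ P K v

/-- the term of a polynomial -/
noncomputable def tm {α : Type} (p : MvPolynomial α ℤ) : Language.ring.Term α :=
  termOfFreeCommRing ((freeCommRingEquivMvPolynomialInt α).symm p)

theorem realize_tm {α : Type} (K : Type) [Field K] [CompatibleRing K] (v : α → K)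
    (p : MvPolynomial α ℤ) : (tm p).realize v = ev K v p := by
  rw [tm, realize_termOfFreeCommRing]
  have h : (FreeCommRing.lift v).comp
      (freeCommRingEquivMvPolynomialInt α).symm.toRingHom = ev K v := by
    apply MvPolynomial.ringHom_ext
    · intro r; simp [ev]
    · intro i
      rw [ev_X]
      have h1 : (freeCommRingEquivMvPolynomialInt α).symm (MvPolynomial.X i)
          = FreeCommRing.of i := by
        rw [RingEquiv.symm_apply_eq]
        exact (FreeCommRing.lift_of _ i).symm
      change FreeCommRing.lift v ((freeCommRingEquivMvPolynomialInt α).symm (MvPolynomial.X i))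
        = v i
      rw [h1, FreeCommRing.lift_of]
  exact RingHom.congr_fun h p

namespace Dfn

variable {α β : Type} {P Q : ∀ (K : Type) [Field K], (α → K) → Prop}

theorem congr (hP : Dfn P) (h : ∀ (K : Type) [Field K] (v : α → K), Q K v ↔ P K v) : Dfn Q := by
  obtain ⟨φ, hφ⟩ := hP
  exact ⟨φ, fun K _ _ v => (hφ K v).trans (h K v).symm⟩

theorem const (c : Prop) : Dfn (fun (K : Type) [Field K] (_ : α → K) => c) := by
  by_cases hc : c
  · exact ⟨⊤, fun K _ _ v => by simp [hc, Formula.Realize]⟩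
  · exact ⟨⊥, fun K _ _ v => by simp [hc, Formula.Realize]⟩

theorem poly (p : MvPolynomial α ℤ) : Dfn (fun (K : Type) [Field K] v => ev K v p = 0) := by
  refine ⟨(tm p).equal 0, fun K _ _ v => ?_⟩
  rw [Formula.realize_equal, realize_tm, realize_zero]

theorem not (hP : Dfn P) : Dfn (fun (K : Type) [Field K] v => ¬ P K v) := by
  obtain ⟨φ, hφ⟩ := hP
  exact ⟨φ.not, fun K _ _ v => by rw [Formula.realize_not, hφ]⟩

theorem and (hP : Dfn P) (hQ : Dfn Q) : Dfn (fun (K : Type) [Field K] v => P K v ∧ Q K v) := by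
  obtain ⟨φ, hφ⟩ := hP
  obtain ⟨ψ, hψ⟩ := hQ
  exact ⟨φ ⊓ ψ, fun K _ _ v => by rw [Formula.realize_inf, hφ, hψ]⟩

theorem or (hP : Dfn P) (hQ : Dfn Q) : Dfn (fun (K : Type) [Field K] v => P K v ∨ Q K v) := by
  obtain ⟨φ, hφ⟩ := hP
  obtain ⟨ψ, hψ⟩ := hQ
  exact ⟨φ ⊔ ψ, fun K _ _ v => by rw [Formula.realize_sup, hφ, hψ]⟩

theorem imp (hP : Dfn P) (hQ : Dfn Q) : Dfn (fun (K : Type) [Field K] v => P K v → Q K v) := by
  obtain ⟨φ, hφ⟩ := hP
  obtain ⟨ψ, hψ⟩ := hQ
  exact ⟨φ.imp ψ, fun K _ _ v => by rw [Formula.realize_imp, hφ, hψ]⟩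

theorem iff (hP : Dfn P) (hQ : Dfn Q) : Dfn (fun (K : Type) [Field K] v => P K v ↔ Q K v) := by
  obtain ⟨φ, hφ⟩ := hP
  obtain ⟨ψ, hψ⟩ := hQ
  exact ⟨φ.iff ψ, fun K _ _ v => by rw [Formula.realize_iff, hφ, hψ]⟩

/-- finite conjunctions -/
theorem forall_fin {ι : Type} [Finite ι] {R : ι → ∀ (K : Type) [Field K], (α → K) → Prop}
    (h : ∀ i, Dfn (R i)) : Dfn (fun (K : Type) [Field K] v => ∀ i, R i K v) := by
  choose φ hφ using h
  refine ⟨Formula.iInf φ, fun K _ _ v => ?_⟩
  rw [Formula.realize_iInf]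
  exact forall_congr' fun i => hφ i K v

/-- finite disjunctions -/
theorem exists_fin {ι : Type} [Finite ι] {R : ι → ∀ (K : Type) [Field K], (α → K) → Prop}
    (h : ∀ i, Dfn (R i)) : Dfn (fun (K : Type) [Field K] v => ∃ i, R i K v) := by
  refine ((forall_fin fun i => (h i).not).not).congr fun K _ v => ?_
  simp

/-- change of variables by polynomials -/
theorem subst (g : β → MvPolynomial α ℤ) {R : ∀ (K : Type) [Field K], (β → K) → Prop}
    (hR : Dfn R) : Dfn (fun (K : Type) [Field K] (v : α → K) => R K (fun b => ev K v (g b))) := by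
  obtain ⟨φ, hφ⟩ := hR
  refine ⟨BoundedFormula.subst φ (fun b => tm (g b)), fun K _ _ v => ?_⟩
  have h1 := hφ K (fun b => ev K v (g b))
  refine Iff.trans ?_ h1
  rw [Formula.Realize, BoundedFormula.realize_subst]
  simp only [realize_tm]
  rfl

/-- renaming of variables -/
theorem comap (g : β → α) {R : ∀ (K : Type) [Field K], (β → K) → Prop}
    (hR : Dfn R) : Dfn (fun (K : Type) [Field K] (v : α → K) => R K (fun b => v (g b))) := by
  refine (hR.subst (fun b => MvPolynomial.X (g b))).congr fun K _ v => ?_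
  simp only [ev_X]

/-- existential quantifiers -/
theorem ex [Finite β] {R : ∀ (K : Type) [Field K], (α ⊕ β → K) → Prop} (hR : Dfn R) :
    Dfn (fun (K : Type) [Field K] (v : α → K) => ∃ z : β → K, R K (Sum.elim v z)) := by
  obtain ⟨φ, hφ⟩ := hR
  refine ⟨φ.iExs β, fun K _ _ v => ?_⟩
  rw [Formula.realize_iExs]
  exact exists_congr fun z => hφ K _

/-- universal quantifiers -/
theorem all [Finite β] {R : ∀ (K : Type) [Field K], (α ⊕ β → K) → Prop} (hR : Dfn R) :
    Dfn (fun (K : Type) [Field K] (v : α → K) => ∀ z : β → K, R K (Sum.elim v z)) := by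
  obtain ⟨φ, hφ⟩ := hR
  refine ⟨φ.iAlls β, fun K _ _ v => ?_⟩
  rw [Formula.realize_iAlls]
  exact forall_congr' fun z => hφ K _

end Dfn

/-- Model completeness in semantic form. -/
theorem Dfn.map_iff {α : Type} {P : ∀ (K : Type) [Field K], (α → K) → Prop} (hP : Dfn P)
    (p : ℕ) (K K' : Type) [Field K] [Field K'] [CharP K p] [CharP K' p] [IsAlgClosed K]
    [IsAlgClosed K'] (f : K →+* K') (v : α → K) : P K' (f ∘ v) ↔ P K v := by
  obtain ⟨φ, hφ⟩ := hP
  letI := compatibleRingOfRing K
  letI := compatibleRingOfRing K'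
  rw [← hφ, ← hφ]
  exact realize_iff p K K' f φ v

/-- the sentence `∀ v, P v` -/
theorem Dfn.exists_sentence {α : Type} [Finite α] {P : ∀ (K : Type) [Field K], (α → K) → Prop}
    (hP : Dfn P) : ∃ s : Language.ring.Sentence, ∀ (K : Type) [Field K] [CompatibleRing K],
      K ⊨ s ↔ ∀ v : α → K, P K v := by
  obtain ⟨φ, hφ⟩ := hP
  refine ⟨(φ.relabel (Sum.inr : α → Empty ⊕ α)).iAlls α, fun K _ _ => ?_⟩
  rw [Sentence.Realize, Formula.realize_iAlls]
  refine forall_congr' fun v => ?_
  rw [Formula.realize_relabel, ← hφ]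
  rfl

/-- All algebraically closed fields of the same characteristic satisfy the same sentences. -/
theorem Dfn.transfer_one {α : Type} [Finite α] {P : ∀ (K : Type) [Field K], (α → K) → Prop}
    (hP : Dfn P) (p : ℕ) (hp : p.Prime ∨ p = 0) (K K' : Type) [Field K] [Field K'] [CharP K p]
    [CharP K' p] [IsAlgClosed K] [IsAlgClosed K'] (h : ∀ v : α → K, P K v) :
    ∀ v : α → K', P K' v := by
  obtain ⟨s, hs⟩ := hP.exists_sentence
  letI := compatibleRingOfRing K
  letI := compatibleRingOfRing K'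
  have h1 : K ⊨ s := (hs K).2 h
  have h2 : Theory.ACF p ⊨ᵇ s := by
    rcases (ACF_isComplete hp).2 s with h3 | h3
    · exact h3
    · exact absurd h1 ((Sentence.realize_not K).1 (h3.realize_sentence K))
  exact (hs K').1 (h2.realize_sentence K')

/-- The principle of Lefschetz: a first order statement which holds for all tuples of elements of
some algebraically closed field of characteristic `p`, for infinitely many primes `p`, holds for
all algebraically closed fields of characteristic zero. -/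
theorem Dfn.lefschetz {α : Type} [Finite α] {P : ∀ (K : Type) [Field K], (α → K) → Prop}
    (hP : Dfn P)
    (h : {p : ℕ | p.Prime ∧ ∃ (K : Type) (_ : Field K) (_ : CharP K p) (_ : IsAlgClosed K),
      ∀ v : α → K, P K v}.Infinite)
    (K : Type) [Field K] [CharZero K] [IsAlgClosed K] (v : α → K) : P K v := by
  obtain ⟨s, hs⟩ := hP.exists_sentence
  have h1 : Set.Infinite {p : Nat.Primes | Theory.ACF p ⊨ᵇ s} := by
    intro hfin
    apply h
    refine (hfin.image (fun p : Nat.Primes => (p : ℕ))).subset ?_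
    rintro p ⟨hp, K, _, _, _, hK⟩
    refine ⟨⟨p, hp⟩, ?_, rfl⟩
    change Theory.ACF p ⊨ᵇ s
    letI := compatibleRingOfRing K
    have h1 : K ⊨ s := (hs K).2 hK
    rcases (ACF_isComplete (Or.inl hp)).2 s with h3 | h3
    · exact h3
    · exact absurd h1 ((Sentence.realize_not K).1 (h3.realize_sentence K))
  have h2 : Theory.ACF 0 ⊨ᵇ s := ACF_zero_realize_iff_infinite_ACF_prime_realize.2 h1
  letI := compatibleRingOfRing K
  haveI : CharP K 0 := CharP.ofCharZero K
  exact (hs K).1 (h2.realize_sentence K) v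

/-- Heights by compactness, semantic form. -/
theorem Dfn.heights {N M : Type} [Finite N] [Finite M]
    {P : ∀ (K : Type) [Field K], (N → K) → Prop} {Q : ∀ (K : Type) [Field K], (N ⊕ M → K) → Prop}
    (hP : Dfn P) (hQ : Dfn Q)
    (h : ∀ (K : Type) [Field K] [CharZero K] [IsAlgClosed K] (a : N → K),
      P K a → ∃ z : M → K, Q K (Sum.elim a z)) :
    ∃ C : ℕ, ∀ (K : Type) [Field K] [CharZero K] [IsAlgClosed K]
      (H : ℕ), 2 ≤ H → ∀ a : N → ℤ, (∀ i, |a i| ≤ H) → P K (fun i => (a i : K)) →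
        ∃ z : M → K, Q K (Sum.elim (fun i => (a i : K)) z) ∧
          ∀ i, ∃ p : Polynomial ℤ, p ≠ 0 ∧ p.natDegree ≤ C ∧ (∀ k, |p.coeff k| ≤ (H : ℤ) ^ C) ∧
            Polynomial.aeval (z i) p = 0 := by
  obtain ⟨φ, hφ⟩ := hP
  obtain ⟨ψ, hψ⟩ := hQ
  obtain ⟨C, hC⟩ := H63EH.heights φ ψ (by
    intro K _ _ _ _ a ha
    obtain ⟨z, hz⟩ := h K a ((hφ K a).1 ha)
    exact ⟨z, (hψ K _).2 hz⟩)
  refine ⟨C, fun K _ _ _ H hH a ha hPa => ?_⟩
  letI := compatibleRingOfRing K
  obtain ⟨z, hz, hr⟩ := hC K H hH a ha ((hφ K _).2 hPa)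
  exact ⟨z, (hψ K _).1 hz, hr⟩

end H63EH
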