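import Pool.Agent.H63.EH.Cpt

/-!
[H63 EH HTS] Heights by compactness: if every algebraically closed field of characteristic zero
satisfies `θ(a) → ∃ z, ψ(a,z)`, then for integers `a` of absolute value at most `H` the
coordinates of `z` can be taken to be roots of nonzero integral polynomials of degree at most `C`
with coefficients at most `H ^ C`.
-/

set_option linter.style.haveILetI false

namespace H63EH

open FirstOrder FirstOrder.Language FirstOrder.Ring FirstOrder.Field

theorem ev_bound {N : Type} (c : MvPolynomial N ℤ) :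
    ∃ C : ℕ, ∀ H : ℕ, 2 ≤ H → ∀ a : N → ℤ, (∀ i, |a i| ≤ H) → |ev ℤ a c| ≤ (H : ℤ) ^ C := by
  induction c using MvPolynomial.induction_on with
  | C r =>
    refine ⟨r.natAbs, fun H hH a _ => ?_⟩
    have h1 : ev ℤ a (MvPolynomial.C r) = r := by simp [ev]
    rw [h1]
    have h2 : (r.natAbs : ℤ) < 2 ^ r.natAbs := by exact_mod_cast Nat.lt_two_pow_self
    have h3 : (2 : ℤ) ^ r.natAbs ≤ (H : ℤ) ^ r.natAbs :=
      pow_le_pow_left₀ (by norm_num) (by exact_mod_cast hH) _
    rw [Int.abs_eq_natAbs]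
    omega
  | add p q hp hq =>
    obtain ⟨C1, h1⟩ := hp
    obtain ⟨C2, h2⟩ := hq
    refine ⟨max C1 C2 + 1, fun H hH a ha => ?_⟩
    have hH' : (2 : ℤ) ≤ H := by exact_mod_cast hH
    rw [map_add]
    have h3 : (H : ℤ) ^ C1 ≤ (H : ℤ) ^ max C1 C2 :=
      pow_le_pow_right₀ (by linarith) (le_max_left _ _)
    have h4 : (H : ℤ) ^ C2 ≤ (H : ℤ) ^ max C1 C2 :=
      pow_le_pow_right₀ (by linarith) (le_max_right _ _)
    have h5 : (0 : ℤ) ≤ (H : ℤ) ^ max C1 C2 := by positivity
    calc |ev ℤ a p + ev ℤ a q| ≤ |ev ℤ a p| + |ev ℤ a q| := abs_add_le _ _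
      _ ≤ (H : ℤ) ^ max C1 C2 * 2 := by linarith [h1 H hH a ha, h2 H hH a ha]
      _ ≤ (H : ℤ) ^ max C1 C2 * H := mul_le_mul_of_nonneg_left hH' h5
      _ = (H : ℤ) ^ (max C1 C2 + 1) := (pow_succ _ _).symm
  | mul_X p i hp =>
    obtain ⟨C1, h1⟩ := hp
    refine ⟨C1 + 1, fun H hH a ha => ?_⟩
    rw [map_mul, ev_X, abs_mul, pow_succ]
    exact mul_le_mul (h1 H hH a ha) (ha i) (abs_nonneg _) (by positivity)

/-- Heights by compactness. -/
theorem heights {N M : Type} [Finite N] [Finite M] (θ : Language.ring.Formula N)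
    (ψ : Language.ring.Formula (N ⊕ M))
    (h : ∀ (K : Type) [Field K] [CompatibleRing K] [CharZero K] [IsAlgClosed K] (a : N → K),
      θ.Realize a → ∃ z : M → K, ψ.Realize (Sum.elim a z)) :
    ∃ C : ℕ, ∀ (K : Type) [Field K] [CompatibleRing K] [CharZero K] [IsAlgClosed K]
      (H : ℕ), 2 ≤ H → ∀ a : N → ℤ, (∀ i, |a i| ≤ H) → θ.Realize (fun i => (a i : K)) →
        ∃ z : M → K, ψ.Realize (Sum.elim (fun i => (a i : K)) z) ∧
          ∀ i, ∃ P : Polynomial ℤ, P ≠ 0 ∧ P.natDegree ≤ C ∧ (∀ k, |P.coeff k| ≤ (H : ℤ) ^ C) ∧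
            Polynomial.aeval (z i) P = 0 := by
  classical
  cases nonempty_fintype M
  obtain ⟨J, P, hP⟩ := compact θ ψ h
  choose B hB using fun c : MvPolynomial N ℤ => ev_bound c
  let C1 : ℕ := ∑ j ∈ Finset.range J, ∑ i : M, (P j i).natDegree
  let C2 : ℕ := ∑ j ∈ Finset.range J, ∑ i : M,
    ∑ k ∈ Finset.range ((P j i).natDegree + 1), B ((P j i).coeff k)
  refine ⟨C1 + C2, ?_⟩
  intro K _ _ _ _ H hH a ha hθ
  obtain ⟨j, hj, z, hz, hr⟩ := hP K (fun i => (a i : K)) hθ
  refine ⟨z, hz, fun i => ⟨(P j i).map (ev ℤ a), ?_, ?_, ?_, ?_⟩⟩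
  · intro h0
    apply (hr i).1
    have h1 : (P j i).map (ev K (fun i => (a i : K)))
        = ((P j i).map (ev ℤ a)).map (Int.castRingHom K) := by
      rw [Polynomial.map_map, comp_ev]
      rfl
    rw [h1, h0, Polynomial.map_zero]
  · refine (Polynomial.natDegree_map_le).trans ?_
    have h1 : (P j i).natDegree ≤ ∑ i : M, (P j i).natDegree :=
      Finset.single_le_sum (f := fun i => (P j i).natDegree) (fun _ _ => Nat.zero_le _)
        (Finset.mem_univ i)
    have h2 : ∑ i : M, (P j i).natDegree ≤ C1 :=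
      Finset.single_le_sum (f := fun j => ∑ i : M, (P j i).natDegree)
        (fun _ _ => Nat.zero_le _) (Finset.mem_range.2 hj)
    omega
  · intro k
    rw [Polynomial.coeff_map]
    by_cases hk : k < (P j i).natDegree + 1
    · refine (hB _ H hH a ha).trans ?_
      refine pow_le_pow_right₀ (by exact_mod_cast (by omega : 1 ≤ H)) ?_
      have h0 : B ((P j i).coeff k)
          ≤ ∑ k ∈ Finset.range ((P j i).natDegree + 1), B ((P j i).coeff k) :=
        Finset.single_le_sum (f := fun k => B ((P j i).coeff k)) (fun _ _ => Nat.zero_le _)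
          (Finset.mem_range.2 hk)
      have h1 : ∑ k ∈ Finset.range ((P j i).natDegree + 1), B ((P j i).coeff k)
          ≤ ∑ i : M, ∑ k ∈ Finset.range ((P j i).natDegree + 1), B ((P j i).coeff k) :=
        Finset.single_le_sum
          (f := fun i => ∑ k ∈ Finset.range ((P j i).natDegree + 1), B ((P j i).coeff k))
          (fun _ _ => Nat.zero_le _) (Finset.mem_univ i)
      have h2 : ∑ i : M, ∑ k ∈ Finset.range ((P j i).natDegree + 1), B ((P j i).coeff k)
          ≤ C2 :=
        Finset.single_le_sum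
          (f := fun j => ∑ i : M, ∑ k ∈ Finset.range ((P j i).natDegree + 1),
            B ((P j i).coeff k)) (fun _ _ => Nat.zero_le _) (Finset.mem_range.2 hj)
      omega
    · rw [Polynomial.coeff_eq_zero_of_natDegree_lt (by omega)]
      simp only [map_zero, abs_zero]
      positivity
  · have h1 := (hr i).2
    have h2 : (P j i).map (ev K (fun i => (a i : K)))
        = ((P j i).map (ev ℤ a)).map (Int.castRingHom K) := by
      rw [Polynomial.map_map, comp_ev]
      rfl
    rw [h2] at h1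
    rw [Polynomial.aeval_def, ← Polynomial.eval_map]
    exact h1

end H63EH
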