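import Mathlib

/-!
[H63 EH MC] Model completeness of the theory of algebraically closed fields: an embedding of
algebraically closed fields preserves and reflects every first order formula.
-/

set_option linter.style.haveILetI false

namespace H63EH

open FirstOrder FirstOrder.Language FirstOrder.Ring FirstOrder.Field Cardinal

/-- An algebraically closed field has an elementary extension of every larger cardinality. -/
theorem exists_big (p : ℕ) (K : Type) [Field K] [CompatibleRing K] [CharP K p] [IsAlgClosed K]
    (κ : Cardinal.{0}) (hκ : #K ≤ κ) :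
    ∃ (E : Type) (_ : Field E) (_ : CompatibleRing E) (_ : IsAlgClosed E) (g : K →+* E),
      #E = κ ∧ ∀ (α : Type) (φ : Language.ring.Formula α) (v : α → K),
        φ.Realize (g ∘ v) ↔ φ.Realize v := by
  haveI : Infinite K := IsAlgClosed.instInfinite
  obtain ⟨N, ⟨g⟩, hN⟩ := exists_elementaryEmbedding_card_eq_of_ge Language.ring K κ
    (by
      simp only [card_ring, lift_id']
      refine le_trans (le_of_lt (lt_aleph0_of_finite _)) ?_
      exact le_trans (aleph0_le_mk K) hκ)
    (by simpa using hκ)
  haveI : Nonempty N := ⟨g 0⟩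
  haveI hM : (Theory.ACF p).Model N := (g.theory_model_iff (Theory.ACF p)).1 inferInstance
  letI := fieldOfModelACF p N
  haveI := modelField_of_modelACF p N
  letI := compatibleRingOfModelField N
  haveI := isAlgClosed_of_model_ACF p N
  refine ⟨N, inferInstance, inferInstance, inferInstance,
    { toFun := g
      map_one' := ?_
      map_mul' := ?_
      map_zero' := ?_
      map_add' := ?_ }, hN, ?_⟩
  · simpa using! g.map_fun oneFunc ![]
  · intro x y
    simpa using! g.map_fun mulFunc ![x, y]
  · simpa using! g.map_fun zeroFunc ![]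
  · intro x y
    simpa using! g.map_fun addFunc ![x, y]
  · intro α φ v
    exact g.map_formula φ v

/-- Two algebraically closed extensions of `R` with equipotent transcendence bases over `R` are
isomorphic over `R`. -/
theorem exists_algEquiv {R K L : Type} [Field R] [Field K] [Field L] [Algebra R K] [Algebra R L]
    [IsAlgClosed K] [IsAlgClosed L] {s : Set K} {t : Set L} (e : s ≃ t)
    (hv : IsTranscendenceBasis R ((↑) : s → K)) (hw : IsTranscendenceBasis R ((↑) : t → L)) :
    Nonempty (K ≃ₐ[R] L) := by
  letI := IsAlgClosed.isAlgClosure_of_transcendence_basis _ hv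
  letI := IsAlgClosed.isAlgClosure_of_transcendence_basis _ hw
  let e1 : Algebra.adjoin R (Set.range ((↑) : s → K)) ≃ₐ[R]
      Algebra.adjoin R (Set.range ((↑) : t → L)) :=
    (hv.1.aevalEquiv.symm.trans (MvPolynomial.renameEquiv R e)).trans hw.1.aevalEquiv
  let e2 : K ≃+* L := IsAlgClosure.equivOfEquiv K L e1.toRingEquiv
  refine ⟨AlgEquiv.ofRingEquiv (f := e2) ?_⟩
  intro r
  have h1 : algebraMap R K r = algebraMap (Algebra.adjoin R (Set.range ((↑) : s → K))) K
      (algebraMap R _ r) := by
    rfl
  rw [h1]
  have h2 := IsAlgClosure.equivOfEquiv_algebraMap K L e1.toRingEquiv (algebraMap R _ r)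
  refine h2.trans ?_
  have h3 : e1.toRingEquiv (algebraMap R _ r) = algebraMap R _ r := e1.commutes r
  rw [h3]
  rfl

/-- Model completeness: embeddings of algebraically closed fields are elementary. -/
theorem realize_iff (p : ℕ) (K K' : Type) [Field K] [Field K'] [CompatibleRing K]
    [CompatibleRing K'] [CharP K p] [CharP K' p] [IsAlgClosed K] [IsAlgClosed K'] (f : K →+* K')
    {α : Type} (φ : Language.ring.Formula α) (v : α → K) :
    φ.Realize (f ∘ v) ↔ φ.Realize v := by
  haveI : Infinite K := IsAlgClosed.instInfinite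
  haveI : Infinite K' := IsAlgClosed.instInfinite
  set κ : Cardinal.{0} := Order.succ (max #K #K') with hκ
  have hκ1 : #K < κ := lt_of_le_of_lt (le_max_left _ _) (Order.lt_succ _)
  have hκ2 : #K' < κ := lt_of_le_of_lt (le_max_right _ _) (Order.lt_succ _)
  have hκ0 : ℵ₀ < κ := lt_of_le_of_lt (aleph0_le_mk K) hκ1
  obtain ⟨E, _, _, _, g, hE, hg⟩ := exists_big p K κ hκ1.le
  obtain ⟨E', _, _, _, g', hE', hg'⟩ := exists_big p K' κ hκ2.le
  letI : Algebra K E := g.toAlgebra
  letI : Algebra K E' := (g'.comp f).toAlgebra
  obtain ⟨s, hs⟩ := exists_isTranscendenceBasis K E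
  obtain ⟨t, ht⟩ := exists_isTranscendenceBasis K E'
  have hsc : #s = κ := by
    apply le_antisymm
    · rw [← hE]; exact mk_set_le s
    · have h := IsAlgClosed.cardinal_le_max_transcendence_basis' _ hs
      rw [hE] at h
      rcases le_max_iff.1 h with h | h
      · rcases le_max_iff.1 h with h | h
        · exact absurd h (not_le.2 hκ1)
        · exact h
      · exact absurd h (not_le.2 hκ0)
  have htc : #t = κ := by
    apply le_antisymm
    · rw [← hE']; exact mk_set_le t
    · have h := IsAlgClosed.cardinal_le_max_transcendence_basis' _ ht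
      rw [hE'] at h
      rcases le_max_iff.1 h with h | h
      · rcases le_max_iff.1 h with h | h
        · exact absurd h (not_le.2 hκ1)
        · exact h
      · exact absurd h (not_le.2 hκ0)
  obtain ⟨e⟩ := Cardinal.eq.1 (hsc.trans htc.symm)
  obtain ⟨ε⟩ := exists_algEquiv e hs ht
  let ε' : Language.ring.Equiv E E' := languageEquivEquivRingEquiv.symm ε.toRingEquiv
  have h1 : φ.Realize (ε' ∘ (g ∘ v)) ↔ φ.Realize (g ∘ v) :=
    StrongHomClass.realize_formula ε' φ
  have h2 : (ε' ∘ (g ∘ v)) = g' ∘ (f ∘ v) := by
    funext i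
    exact ε.commutes (v i)
  rw [h2] at h1
  exact (hg' α φ (f ∘ v)).symm.trans (h1.trans (hg α φ v))

end H63EH
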