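import Pool.Agent.H93.OP.Defs

/-!
[H63 EH NRMB] A solution of the singularity system shows that the ring is not integrally closed.
-/

set_option autoImplicit false
set_option linter.style.haveILetI false

namespace H63EH

open Polynomial Pool.H93.OP

/-- The singularity system of a multiplication table. -/
def Sing {k : Type} [Field k] {s : ℕ} (P : Fin s → Fin s → Fin s → k[X]) (c : k)
    (ε ζ : Fin s → k) : Prop :=
  (∑ j, ζ j * ε j = 0) ∧ (∀ i l, ∑ j, ζ j * (P j i l).eval c = ε i * ζ l) ∧
    (∀ i, ∑ l, (∑ j, ζ j * (derivative (P j i l)).eval c) * ε l = 0) ∧ ∃ j, ζ j ≠ 0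

section

variable {k R : Type} [Field k] [CommRing R] [Algebra k R] {s : ℕ} {t : R} {e : Fin s → R}

theorem comb_add (f g : Fin s → k[X]) :
    comb k t e (f + g) = comb k t e f + comb k t e g := by
  simp only [comb, Pi.add_apply, map_add, add_mul, Finset.sum_add_distrib]

theorem comb_smul (p : k[X]) (f : Fin s → k[X]) :
    comb k t e (fun j => p * f j) = aeval t p * comb k t e f := by
  simp only [comb, map_mul, Finset.mul_sum, mul_assoc]

theorem comb_sub (f g : Fin s → k[X]) :
    comb k t e (f - g) = comb k t e f - comb k t e g := by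
  simp only [comb, Pi.sub_apply, map_sub, sub_mul, Finset.sum_sub_distrib]

theorem comb_C (ζ : Fin s → k) :
    comb k t e (fun j => C (ζ j)) = ∑ j, ζ j • e j := by
  simp only [comb, aeval_C, Algebra.smul_def]

theorem aeval_XC (c : k) : aeval t (X - C c) = t - algebraMap k R c := by
  simp

/-- the product of a combination with constant coefficients and `e i` -/
theorem comb_mul {P : Fin s → Fin s → Fin s → k[X]} (hm : ∀ i j, e i * e j = comb k t e (P i j))
    (ζ : Fin s → k) (i : Fin s) :
    (∑ j, ζ j • e j) * e i = comb k t e (fun l => ∑ j, C (ζ j) * P j i l) := by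
  rw [Finset.sum_mul]
  have h1 : ∀ j, ζ j • e j * e i = comb k t e (fun l => C (ζ j) * P j i l) := by
    intro j
    rw [comb_smul, ← hm, aeval_C, Algebra.smul_def, mul_assoc]
  simp only [h1, comb, map_sum, Finset.sum_mul]
  exact Finset.sum_comm

end

/-- A solution of the singularity system shows that the ring is not integrally closed. -/
theorem not_closed_of_sing {k R : Type} [Field k] [CommRing R] [IsDomain R] [Algebra k R] {s : ℕ}
    {t : R} {e : Fin s → R} {P : Fin s → Fin s → Fin s → k[X]} (h : HasTab k t e P) (c : k)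
    (ε ζ : Fin s → k) (hs : Sing P c ε ζ) : ¬ IsIntegrallyClosed R := by
  obtain ⟨h2, h3, h4, j0, hj0⟩ := hs
  intro hR
  let K : Type := FractionRing R
  set z : R := ∑ j, ζ j • e j with hz
  set τ : R := t - algebraMap k R c with hτ
  -- `τ` is not zero
  have hτ0 : τ ≠ 0 := by
    intro h0
    have h5 : comb k t e (fun j => (X - C c) * C (ζ j)) = comb k t e (fun _ => 0) := by
      rw [comb_smul, aeval_XC, ← hτ, h0, zero_mul]
      simp [comb]
    have h6 := congrFun (h.bij.1 h5) j0
    rcases mul_eq_zero.1 h6 with h7 | h7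
    · exact X_sub_C_ne_zero c h7
    · exact hj0 (C_eq_zero.1 h7)
  -- the ideal of the point
  let N : Ideal R := Ideal.span (insert τ (Set.range fun i => e i - algebraMap k R (ε i)))
  have hτN : τ ∈ N := Ideal.subset_span (Set.mem_insert _ _)
  have heN : ∀ i, e i - algebraMap k R (ε i) ∈ N := fun i =>
    Ideal.subset_span (Set.mem_insert_of_mem _ ⟨i, rfl⟩)
  -- combinations modulo `N`
  have hmod : ∀ f : Fin s → k[X], comb k t e f - algebraMap k R (∑ j, (f j).eval c * ε j) ∈ N := by
    intro f
    have h5 : comb k t e f - algebraMap k R (∑ j, (f j).eval c * ε j)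
        = ∑ j, (aeval t (f j) * e j - algebraMap k R ((f j).eval c * ε j)) := by
      rw [comb, map_sum, Finset.sum_sub_distrib]
    rw [h5]
    refine N.sum_mem fun j _ => ?_
    have h6 : aeval t (f j) - algebraMap k R ((f j).eval c) ∈ N := by
      have h7 : (X - C c) ∣ f j - C ((f j).eval c) := by
        rw [dvd_iff_isRoot]
        simp
      obtain ⟨g, hg⟩ := h7
      have h8 := congrArg (aeval t) hg
      rw [map_sub, aeval_C, map_mul, aeval_XC, ← hτ] at h8
      rw [h8]
      exact N.mul_mem_right _ hτN
    have h9 : aeval t (f j) * e j - algebraMap k R ((f j).eval c * ε j)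
        = (aeval t (f j) - algebraMap k R ((f j).eval c)) * e j
          + algebraMap k R ((f j).eval c) * (e j - algebraMap k R (ε j)) := by
      rw [map_mul]; ring
    rw [h9]
    exact N.add_mem (N.mul_mem_right _ h6) (N.mul_mem_left _ (heN j))
  have hzN : z ∈ N := by
    have h5 := hmod (fun j => C (ζ j))
    rw [comb_C] at h5
    simpa [h2] using h5
  -- multiplication by `b = z / τ`
  have hq : ∀ i, ∃ q ∈ N, z * (e i - algebraMap k R (ε i)) = τ * q := by
    intro i
    let g : Fin s → k[X] := fun l => ∑ j, C (ζ j) * P j i l - C (ε i * ζ l)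
    have hg0 : ∀ l, (X - C c) ∣ g l := by
      intro l
      rw [dvd_iff_isRoot, IsRoot, eval_sub, eval_finsetSum, eval_C]
      simp only [eval_mul, eval_C]
      rw [h3 i l, sub_self]
    choose g' hg' using hg0
    refine ⟨comb k t e g', ?_, ?_⟩
    · have h5 := hmod g'
      have h6 : ∑ j, (g' j).eval c * ε j = 0 := by
        rw [← h4 i]
        refine Finset.sum_congr rfl fun l _ => ?_
        congr 1
        have h7 := congrArg (fun p => eval c (derivative p)) (hg' l)
        simp only [derivative_mul, derivative_sub, derivative_X, derivative_C, eval_add, eval_mul,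
          eval_sub, eval_X, eval_C, sub_self, zero_mul, add_zero, sub_zero, one_mul, g,
          derivative_sum, eval_finsetSum, zero_add] at h7
        rw [← h7]
      rw [h6, map_zero, sub_zero] at h5
      exact h5
    · have h5 : z * (e i - algebraMap k R (ε i)) = comb k t e g := by
        have h6 : g = (fun l => ∑ j, C (ζ j) * P j i l) - (fun l => C (ε i) * C (ζ l)) := by
          funext l
          simp only [g, Pi.sub_apply, C_mul]
        rw [h6, comb_sub, ← comb_mul h.mul, comb_smul, comb_C, aeval_C, mul_sub, mul_comm _ z]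
      rw [h5]
      have h6 : g = fun l => (X - C c) * g' l := funext hg'
      rw [h6, comb_smul, aeval_XC]
  have hbN : ∀ n ∈ N, ∃ n' ∈ N, z * n = τ * n' := by
    intro n hn
    refine Submodule.span_induction (p := fun n _ => ∃ n' ∈ N, z * n = τ * n') ?_ ?_ ?_ ?_ hn
    · rintro x (rfl | ⟨i, rfl⟩)
      · exact ⟨z, hzN, mul_comm _ _⟩
      · exact hq i
    · exact ⟨0, N.zero_mem, by simp⟩
    · rintro x y _ _ ⟨x', hx', hx⟩ ⟨y', hy', hy⟩
      exact ⟨x' + y', N.add_mem hx' hy', by rw [mul_add, mul_add, hx, hy]⟩
    · rintro r x _ ⟨x', hx', hx⟩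
      refine ⟨r * x', N.mul_mem_left _ hx', ?_⟩
      rw [smul_eq_mul, mul_left_comm, hx, mul_left_comm]
  have hinj : Function.Injective (algebraMap R K) := IsFractionRing.injective R K
  have hτK : algebraMap R K τ ≠ 0 := by
    intro h0
    exact hτ0 (hinj (by rw [h0, map_zero]))
  let b : K := algebraMap R K z / algebraMap R K τ
  let N' : Submodule R K := Submodule.map (Algebra.linearMap R K) N
  have hbi : IsIntegral R b := by
    refine isIntegral_of_smul_mem_submodule (M := K) N' ?_ ?_ b ?_
    · intro h0
      have h5 : algebraMap R K τ ∈ N' := ⟨τ, hτN, rfl⟩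
      rw [h0, Submodule.mem_bot] at h5
      exact hτK h5
    · refine Submodule.FG.map _ ?_
      exact ⟨(Set.Finite.insert τ (Set.finite_range _)).toFinset, by
        rw [Set.Finite.coe_toFinset]⟩
    · rintro _ ⟨n, hn, rfl⟩
      obtain ⟨n', hn', hnn⟩ := hbN n hn
      refine ⟨n', hn', ?_⟩
      have h5 := congrArg (algebraMap R K) hnn
      rw [map_mul, map_mul] at h5
      simp only [Algebra.linearMap_apply, smul_eq_mul, b]
      rw [div_mul_eq_mul_div, eq_div_iff hτK, mul_comm, ← h5]
  obtain ⟨a, ha⟩ := (IsIntegrallyClosed.isIntegral_iff (R := R) (K := K)).1 hbi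
  have h5 : z = τ * a := by
    apply hinj
    rw [map_mul, ha]
    simp only [b]
    rw [mul_div_cancel₀]
    exact hτK
  obtain ⟨f, rfl⟩ := h.bij.2 a
  rw [hz, ← comb_C, hτ, ← aeval_XC, ← comb_smul] at h5
  have h6 := congrFun (h.bij.1 h5) j0
  have h7 := congrArg (eval c) h6
  simp at h7
  exact hj0 h7

end H63EH
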